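import Mathlib
import Pool.Agent.Lib.MP_018119_an_FB.Final

/-!
# MP_018119_an, Q1 (Bishop), stated on the Riemann sphere

The Riemann sphere is `OnePoint ℂ`, Möbius transformations are the maps given by Mathlib's action
of `GL(2, ℂ)` on `OnePoint ℂ`, and holomorphy is read in the two charts `z` and `1 / z`.

Main theorem `result`: every curve in the plane (Jordan arc or Jordan curve) which is not
conformally removable contains a Cantor set which is not conformally removable.
-/

set_option autoImplicit false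

open Topology Filter Set OnePoint Matrix

namespace Pool.Agent.Results.MP_018119_an.RiemannSphere

/-- The two charts of the Riemann sphere, as parametrisations: `par false z = z`, and
`par true w = 1 / w`, where `1 / 0 = ∞`. -/
noncomputable def par (i : Bool) (w : ℂ) : OnePoint ℂ :=
  if i = true then (if w = 0 then ∞ else ((w⁻¹ : ℂ) : OnePoint ℂ)) else (w : OnePoint ℂ)

/-- `f` is holomorphic at the point `x` of the Riemann sphere: in suitable charts (each of them `z`
or `1 / z`) at `x` and at `f x`, the map `f` is given near `x` by a holomorphic function `g`. -/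
def HolAt (f : OnePoint ℂ → OnePoint ℂ) (x : OnePoint ℂ) : Prop :=
  ∃ (i j : Bool) (w : ℂ) (g : ℂ → ℂ), par i w = x ∧ AnalyticAt ℂ g w ∧
    ∀ᶠ z in 𝓝 w, f (par i z) = par j (g z)

/-- The set `E` of the plane is conformally removable: every homeomorphism of the Riemann sphere
which is conformal (holomorphic at every point) off `E` is a Möbius transformation. -/
def ConfRemovable (E : Set ℂ) : Prop :=
  ∀ f : OnePoint ℂ ≃ₜ OnePoint ℂ,
    (∀ x : OnePoint ℂ, x ∉ ((fun z : ℂ => (z : OnePoint ℂ)) '' E) → HolAt f x) →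
      ∃ A : GL (Fin 2) ℂ, ∀ x, f x = A • x

/-- A curve: a Jordan arc (a set homeomorphic to `[0,1]`) or a Jordan curve (a set homeomorphic to
the unit circle) in the plane. -/
def IsCurve (C : Set ℂ) : Prop :=
  Nonempty (unitInterval ≃ₜ C) ∨ Nonempty (Circle ≃ₜ C)

/-- A Cantor set in the plane: a nonempty compact totally disconnected set without isolated
points. -/
def IsCantorSet (K : Set ℂ) : Prop :=
  K.Nonempty ∧ IsCompact K ∧ IsTotallyDisconnected K ∧ ∀ x ∈ K, AccPt x (𝓟 K)

/-! ### Möbius transformations -/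

/-- The matrix of `z ↦ 1 / z`. -/
noncomputable def invM : GL (Fin 2) ℂ :=
  Matrix.GeneralLinearGroup.mkOfDetNeZero !![0, 1; 1, 0] (by simp [Matrix.det_fin_two])

theorem par_false (w : ℂ) : par false w = (w : OnePoint ℂ) := by simp [par]

theorem par_true_zero : par true 0 = ∞ := by simp [par]

theorem par_true_of_ne {w : ℂ} (h : w ≠ 0) : par true w = ((w⁻¹ : ℂ) : OnePoint ℂ) := by
  simp [par, h]

theorem par_true_inv {w : ℂ} (h : w ≠ 0) : par true w⁻¹ = (w : OnePoint ℂ) := by
  rw [par_true_of_ne (inv_ne_zero h), inv_inv]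

theorem invM_smul (w : ℂ) : invM • (w : OnePoint ℂ) = par true w := by
  rw [smul_some_eq_ite]
  simp [invM, par, Matrix.GeneralLinearGroup.mkOfDetNeZero]

theorem invM_mul : invM * invM = 1 := by
  ext i j
  fin_cases i <;> fin_cases j <;>
    simp [invM, Matrix.GeneralLinearGroup.mkOfDetNeZero, Matrix.mul_apply, Fin.sum_univ_two]

theorem invM_smul_smul (x : OnePoint ℂ) : invM • invM • x = x := by
  rw [← mul_smul, invM_mul, one_smul]

theorem invM_smul_infty : invM • (∞ : OnePoint ℂ) = ((0 : ℂ) : OnePoint ℂ) := by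
  rw [← par_true_zero, ← invM_smul, invM_smul_smul]

/-- Every Möbius transformation is given near a finite point by a holomorphic function, in a
suitable chart at the image point. -/
theorem smul_chart (A : GL (Fin 2) ℂ) (u₀ : ℂ) :
    ∃ (j : Bool) (m : ℂ → ℂ), AnalyticAt ℂ m u₀ ∧
      ∀ᶠ u : ℂ in 𝓝 u₀, A • (u : OnePoint ℂ) = par j (m u) := by
  have hdet : A 0 0 * A 1 1 - A 0 1 * A 1 0 ≠ 0 := by
    have := A.det_ne_zero
    rwa [Matrix.det_fin_two] at this
  by_cases h : A 1 0 * u₀ + A 1 1 = 0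
  · have h1 : A 0 0 * u₀ + A 0 1 ≠ 0 := by
      intro h2
      apply hdet
      by_cases hc : A 1 0 = 0
      · rw [hc] at h ⊢
        have h3 : A 1 1 = 0 := by simpa using h
        rw [h3]
        ring
      · have h3 : A 1 0 * (A 0 0 * A 1 1 - A 0 1 * A 1 0) = 0 := by
          linear_combination A 1 0 * A 0 0 * h - A 1 0 * A 1 0 * h2
        exact (mul_eq_zero.1 h3).resolve_left hc
    refine ⟨true, fun u => (A 1 0 * u + A 1 1) / (A 0 0 * u + A 0 1), ?_, ?_⟩
    · exact ((analyticAt_const.mul analyticAt_id).add analyticAt_const).div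
        ((analyticAt_const.mul analyticAt_id).add analyticAt_const) h1
    · have h2 : ∀ᶠ u in 𝓝 u₀, A 0 0 * u + A 0 1 ≠ 0 := by
        have hc : ContinuousAt (fun u : ℂ => A 0 0 * u + A 0 1) u₀ := by fun_prop
        exact hc.eventually_ne h1
      filter_upwards [h2] with u hu
      rw [smul_some_eq_ite]
      by_cases h3 : A 1 0 * u + A 1 1 = 0
      · simp [h3, par]
      · rw [if_neg h3, par_true_of_ne (div_ne_zero h3 hu), inv_div]
  · refine ⟨false, fun u => (A 0 0 * u + A 0 1) / (A 1 0 * u + A 1 1), ?_, ?_⟩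
    · exact ((analyticAt_const.mul analyticAt_id).add analyticAt_const).div
        ((analyticAt_const.mul analyticAt_id).add analyticAt_const) h
    · have h2 : ∀ᶠ u in 𝓝 u₀, A 1 0 * u + A 1 1 ≠ 0 := by
        have hc : ContinuousAt (fun u : ℂ => A 1 0 * u + A 1 1) u₀ := by fun_prop
        exact hc.eventually_ne h
      filter_upwards [h2] with u hu
      rw [smul_some_eq_ite, if_neg hu, par_false]

theorem smul_par (A : GL (Fin 2) ℂ) (i : Bool) (u : ℂ) :
    A • par i u = (if i = true then A * invM else A) • (u : OnePoint ℂ) := by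
  cases i
  · simp [par_false]
  · rw [if_pos rfl, ← invM_smul, mul_smul]

/-- The composition of a map holomorphic at `x` with a Möbius transformation. -/
theorem HolAt.smul {f : OnePoint ℂ → OnePoint ℂ} {x : OnePoint ℂ} (h : HolAt f x)
    (A : GL (Fin 2) ℂ) : HolAt (fun y => A • f y) x := by
  obtain ⟨i, j, w, g, hw, hg, he⟩ := h
  obtain ⟨k, m, hm, hme⟩ := smul_chart (if j = true then A * invM else A) (g w)
  refine ⟨i, k, w, fun z => m (g z), hw, AnalyticAt.fun_comp hm hg, ?_⟩
  filter_upwards [he, hg.continuousAt.eventually hme] with z h1 h2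
  rw [h1, smul_par, h2]

/-- Chart independence at finite points. -/
theorem HolAt.analyticAt {f : OnePoint ℂ → OnePoint ℂ} {z₀ : ℂ} (h : HolAt f z₀) {F : ℂ → ℂ}
    (hF : ∀ᶠ z : ℂ in 𝓝 z₀, f z = (F z : OnePoint ℂ)) : AnalyticAt ℂ F z₀ := by
  obtain ⟨i, j, w, g, hw, hg, he⟩ := h
  -- first a chart at `z₀`
  have h1 : ∃ g₁ : ℂ → ℂ, AnalyticAt ℂ g₁ z₀ ∧ ∀ᶠ z : ℂ in 𝓝 z₀, f z = par j (g₁ z) := by
    cases i
    · rw [par_false, coe_eq_coe] at hw
      subst hw
      exact ⟨g, hg, by simpa only [par_false] using he⟩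
    · have hw0 : w ≠ 0 := by
        rintro rfl
        rw [par_true_zero] at hw
        exact infty_ne_coe _ hw
      rw [par_true_of_ne hw0, coe_eq_coe] at hw
      subst hw
      have hinv : AnalyticAt ℂ (fun z : ℂ => z⁻¹) w⁻¹ := analyticAt_inv (inv_ne_zero hw0)
      refine ⟨fun z => g z⁻¹, AnalyticAt.fun_comp (by simpa using hg) hinv, ?_⟩
      have h2 : Tendsto (fun z : ℂ => z⁻¹) (𝓝 w⁻¹) (𝓝 w) := by
        simpa using hinv.continuousAt.tendsto
      have h3 : ∀ᶠ z in 𝓝 w⁻¹, z ≠ 0 := continuousAt_id.eventually_ne (inv_ne_zero hw0)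
      filter_upwards [h2.eventually he, h3] with z h4 h5
      rwa [par_true_inv h5] at h4
  obtain ⟨g₁, hg₁, he₁⟩ := h1
  cases j
  · refine hg₁.congr ?_
    filter_upwards [he₁, hF] with z h2 h3
    rw [h2, par_false, coe_eq_coe] at h3
    exact h3
  · have h4 : ∀ᶠ z in 𝓝 z₀, g₁ z ≠ 0 ∧ (g₁ z)⁻¹ = F z := by
      filter_upwards [he₁, hF] with z h2 h3
      rw [h2] at h3
      have h5 : g₁ z ≠ 0 := by
        intro h5
        rw [h5, par_true_zero] at h3
        exact infty_ne_coe _ h3
      rw [par_true_of_ne h5, coe_eq_coe] at h3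
      exact ⟨h5, h3⟩
    refine (hg₁.inv h4.self_of_nhds.1).congr ?_
    filter_upwards [h4] with z h5
    exact h5.2

/-! ### Continuity of Möbius transformations -/

theorem continuous_invM : Continuous fun x : OnePoint ℂ => invM • x := by
  rw [continuous_iff]
  refine ⟨?_, ?_⟩
  · rw [invM_smul_infty, coclosedCompact_eq_cocompact, ← Metric.cobounded_eq_cocompact]
    have h1 : Tendsto (fun z : ℂ => ((z⁻¹ : ℂ) : OnePoint ℂ)) (Bornology.cobounded ℂ)
        (𝓝 ((0 : ℂ) : OnePoint ℂ)) :=
      (continuous_coe.tendsto _).comp tendsto_inv₀_cobounded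
    refine h1.congr' ?_
    filter_upwards [(tendsto_norm_cobounded_atTop (E := ℂ)).eventually_gt_atTop 0] with z hz
    have hz0 : z ≠ 0 := norm_pos_iff.1 hz
    rw [invM_smul, par_true_of_ne hz0]
  · rw [continuous_iff_continuousAt]
    intro z
    by_cases hz : z = 0
    · subst hz
      have h0 : invM • ((0 : ℂ) : OnePoint ℂ) = ∞ := by rw [invM_smul, par_true_zero]
      rw [continuousAt_iff_punctured_nhds, h0]
      have h1 : Tendsto (fun z : ℂ => ((z⁻¹ : ℂ) : OnePoint ℂ)) (𝓝[≠] 0) (𝓝 ∞) := by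
        refine tendsto_coe_infty.comp ?_
        rw [coclosedCompact_eq_cocompact, ← Metric.cobounded_eq_cocompact]
        exact tendsto_inv₀_nhdsNE_zero
      refine h1.congr' ?_
      filter_upwards [self_mem_nhdsWithin] with z hz
      rw [invM_smul, par_true_of_ne hz]
    · have h1 : ContinuousAt (fun z : ℂ => ((z⁻¹ : ℂ) : OnePoint ℂ)) z :=
        continuous_coe.continuousAt.comp (continuousAt_inv₀ hz)
      refine h1.congr ?_
      have h2 : ∀ᶠ y : ℂ in 𝓝 z, y ≠ 0 := continuousAt_id.eventually_ne hz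
      filter_upwards [h2] with y hy
      rw [invM_smul, par_true_of_ne hy]

theorem continuous_par (i : Bool) : Continuous (par i) := by
  cases i
  · have : par false = fun w : ℂ => (w : OnePoint ℂ) := funext par_false
    rw [this]
    exact continuous_coe
  · have : par true = fun w : ℂ => invM • (w : OnePoint ℂ) := funext fun w => (invM_smul w).symm
    rw [this]
    exact continuous_invM.comp continuous_coe

theorem continuous_smul_coe (A : GL (Fin 2) ℂ) :
    Continuous fun u : ℂ => A • (u : OnePoint ℂ) := by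
  rw [continuous_iff_continuousAt]
  intro u
  obtain ⟨j, m, hm, hme⟩ := smul_chart A u
  have h1 : ContinuousAt (fun u => par j (m u)) u :=
    (continuous_par j).continuousAt.comp hm.continuousAt
  exact h1.congr (hme.mono fun z hz => hz.symm)

theorem continuous_smul (A : GL (Fin 2) ℂ) : Continuous fun x : OnePoint ℂ => A • x := by
  rw [continuous_iff]
  refine ⟨?_, continuous_smul_coe A⟩
  -- `A • z = (A * invM) • (1 / z)`
  have h1 : Tendsto (fun z : ℂ => (A * invM) • ((z⁻¹ : ℂ) : OnePoint ℂ)) (coclosedCompact ℂ)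
      (𝓝 (A • ∞)) := by
    have h2 : A • (∞ : OnePoint ℂ) = (A * invM) • ((0 : ℂ) : OnePoint ℂ) := by
      rw [mul_smul, invM_smul, par_true_zero]
    rw [h2, coclosedCompact_eq_cocompact, ← Metric.cobounded_eq_cocompact]
    exact ((continuous_smul_coe (A * invM)).tendsto 0).comp tendsto_inv₀_cobounded
  refine h1.congr' ?_
  rw [coclosedCompact_eq_cocompact, ← Metric.cobounded_eq_cocompact]
  filter_upwards [(tendsto_norm_cobounded_atTop (E := ℂ)).eventually_gt_atTop 0] with z hz
  have hz0 : z ≠ 0 := norm_pos_iff.1 hz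
  rw [mul_smul, invM_smul, par_true_inv hz0]

/-- A Möbius transformation as a homeomorphism of the sphere. -/
noncomputable def moebius (A : GL (Fin 2) ℂ) : OnePoint ℂ ≃ₜ OnePoint ℂ where
  toFun x := A • x
  invFun x := A⁻¹ • x
  left_inv x := inv_smul_smul A x
  right_inv x := smul_inv_smul A x
  continuous_toFun := continuous_smul A
  continuous_invFun := continuous_smul A⁻¹

theorem exists_smul_eq_infty (p : OnePoint ℂ) : ∃ A : GL (Fin 2) ℂ, A • p = ∞ := by
  induction p using OnePoint.rec with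
  | infty => exact ⟨1, one_smul _ _⟩
  | coe p =>
    refine ⟨Matrix.GeneralLinearGroup.mkOfDetNeZero !![0, 1; 1, -p]
      (by simp [Matrix.det_fin_two]), ?_⟩
    rw [smul_some_eq_ite]
    simp [Matrix.GeneralLinearGroup.mkOfDetNeZero]

/-! ### Homeomorphisms of the plane and homeomorphisms of the sphere fixing `∞` -/

/-- A homeomorphism of the sphere fixing `∞` restricts to a homeomorphism of the plane. -/
theorem exists_planar (e : OnePoint ℂ ≃ₜ OnePoint ℂ) (he : e ∞ = ∞) :
    ∃ F : ℂ ≃ₜ ℂ, ∀ z : ℂ, e z = (F z : OnePoint ℂ) := by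
  have h1 : ∀ (e : OnePoint ℂ ≃ₜ OnePoint ℂ), e ∞ = ∞ →
      ∃ F : ℂ → ℂ, Continuous F ∧ ∀ z : ℂ, e z = (F z : OnePoint ℂ) := by
    intro e he
    have h2 : ∀ z : ℂ, ∃ y : ℂ, (y : OnePoint ℂ) = e z := by
      intro z
      rw [← ne_infty_iff_exists, ← he]
      exact fun h => coe_ne_infty z (e.injective h)
    choose F hF using h2
    refine ⟨F, ?_, fun z => (hF z).symm⟩
    rw [(isOpenEmbedding_coe (X := ℂ)).isEmbedding.continuous_iff]
    have h3 : ((fun z : ℂ => (z : OnePoint ℂ)) ∘ F) = fun z : ℂ => e z := funext hF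
    exact h3 ▸ e.continuous.comp continuous_coe
  obtain ⟨F, hFc, hF⟩ := h1 e he
  obtain ⟨G, hGc, hG⟩ := h1 e.symm (by rw [Homeomorph.symm_apply_eq, he])
  refine ⟨⟨⟨F, G, fun z => ?_, fun z => ?_⟩, hFc, hGc⟩, hF⟩
  · have : ((G (F z) : ℂ) : OnePoint ℂ) = z := by
      rw [← hG, ← hF, Homeomorph.symm_apply_apply]
    exact coe_eq_coe.1 this
  · have : ((F (G z) : ℂ) : OnePoint ℂ) = z := by
      rw [← hF, ← hG, Homeomorph.apply_symm_apply]
    exact coe_eq_coe.1 this

/-- A set which is not conformally removable carries a non-affine homeomorphism of the plane. -/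
theorem planar_of_not_removable {E : Set ℂ} (hE : ¬ ConfRemovable E) :
    ∃ f : ℂ ≃ₜ ℂ, DifferentiableOn ℂ (⇑f) Eᶜ ∧ ¬ ∃ a b : ℂ, ∀ z, f z = a * z + b := by
  unfold ConfRemovable at hE
  push Not at hE
  obtain ⟨f, hf, hfA⟩ := hE
  obtain ⟨A, hA⟩ := exists_smul_eq_infty (f ∞)
  obtain ⟨F, hF⟩ := exists_planar (f.trans (moebius A)) hA
  have hF' : ∀ z : ℂ, A • f z = (F z : OnePoint ℂ) := hF
  refine ⟨F, fun z hz => ?_, ?_⟩
  · have h1 : (z : OnePoint ℂ) ∉ ((fun z : ℂ => (z : OnePoint ℂ)) '' E) := by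
      rintro ⟨y, hy, hyz⟩
      exact hz (coe_eq_coe.1 hyz ▸ hy)
    exact (((hf z h1).smul A).analyticAt
      (Eventually.of_forall hF')).differentiableAt.differentiableWithinAt
  · rintro ⟨a, b, hab⟩
    have ha : a ≠ 0 := by
      rintro rfl
      have h1 : F 0 = F 1 := by rw [hab, hab]; ring
      exact zero_ne_one (F.injective h1)
    let B : GL (Fin 2) ℂ := Matrix.GeneralLinearGroup.mkOfDetNeZero !![a, b; 0, 1]
      (by simp [Matrix.det_fin_two, ha])
    have hB : ∀ x : OnePoint ℂ, A • f x = B • x := by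
      intro x
      induction x using OnePoint.rec with
      | infty =>
        rw [hA, eq_comm, smul_infty_eq_self_iff]
        simp [B, Matrix.GeneralLinearGroup.mkOfDetNeZero]
      | coe z =>
        rw [hF', hab, smul_some_eq_ite]
        simp [B, Matrix.GeneralLinearGroup.mkOfDetNeZero]
    obtain ⟨x, hx⟩ := hfA (A⁻¹ * B)
    apply hx
    rw [mul_smul, ← hB, inv_smul_smul]

/-- A compact set which carries a non-affine homeomorphism of the plane is not conformally
removable. -/
theorem not_removable_of_planar {E : Set ℂ} (hE : IsCompact E)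
    (h : ∃ f : ℂ ≃ₜ ℂ, DifferentiableOn ℂ (⇑f) Eᶜ ∧ ¬ ∃ a b : ℂ, ∀ z, f z = a * z + b) :
    ¬ ConfRemovable E := by
  obtain ⟨F, hF, hna⟩ := h
  intro hrem
  have hEo : IsOpen Eᶜ := hE.isClosed.isOpen_compl
  have hcoe : ∀ z : ℂ, F.onePointCongr z = (F z : OnePoint ℂ) := fun z => rfl
  have hinf : F.onePointCongr ∞ = ∞ := rfl
  obtain ⟨A, hA⟩ := hrem F.onePointCongr fun x hx => by
    induction x using OnePoint.rec with
    | infty =>
      -- near infinity
      have hco : Tendsto (fun w : ℂ => F w⁻¹) (𝓝[≠] 0) (Bornology.cobounded ℂ) := by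
        have h1 : Tendsto F (Bornology.cobounded ℂ) (Bornology.cobounded ℂ) := by
          rw [Metric.cobounded_eq_cocompact]
          exact F.isClosedEmbedding.tendsto_cocompact
        exact h1.comp tendsto_inv₀_nhdsNE_zero
      have hne : ∀ᶠ w : ℂ in 𝓝[≠] 0, F w⁻¹ ≠ 0 := by
        filter_upwards [hco.eventually
          ((tendsto_norm_cobounded_atTop (E := ℂ)).eventually_gt_atTop 0)] with w hw
        exact norm_pos_iff.1 hw
      have hout : ∀ᶠ w : ℂ in 𝓝[≠] 0, w⁻¹ ∉ E := by
        have h1 : Eᶜ ∈ Bornology.cobounded ℂ := by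
          rw [Metric.cobounded_eq_cocompact]
          exact hE.compl_mem_cocompact
        exact tendsto_inv₀_nhdsNE_zero.eventually h1
      have hloc : ∀ᶠ w : ℂ in 𝓝 0, F.onePointCongr (par true w) =
          par true (if w = 0 then 0 else (F w⁻¹)⁻¹) := by
        rw [eventually_nhdsWithin_iff] at hne
        filter_upwards [hne] with w hw
        by_cases h0 : w = 0
        · subst h0
          rw [if_pos rfl, par_true_zero, hinf]
        · rw [if_neg h0, par_true_of_ne h0, hcoe, par_true_inv (hw h0)]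
      refine ⟨true, true, 0, fun w => if w = 0 then 0 else (F w⁻¹)⁻¹, par_true_zero, ?_, hloc⟩
      refine Complex.analyticAt_of_differentiable_on_punctured_nhds_of_continuousAt ?_ ?_
      · have hne0 : ∀ᶠ w : ℂ in 𝓝[≠] 0, w ≠ 0 := self_mem_nhdsWithin
        filter_upwards [hne, hout, hne0] with w h1 h2 h3
        have h4 : DifferentiableAt ℂ (fun w => (F w⁻¹)⁻¹) w := by
          have h5 : DifferentiableAt ℂ F w⁻¹ := hF.differentiableAt (hEo.mem_nhds h2)
          exact (h5.comp w (differentiableAt_inv h3)).inv h1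
        refine h4.congr_of_eventuallyEq ?_
        have h6 : ∀ᶠ y : ℂ in 𝓝 w, y ≠ 0 := continuousAt_id.eventually_ne h3
        filter_upwards [h6] with y hy
        rw [if_neg hy]
      · rw [continuousAt_iff_punctured_nhds]
        simp only [if_true]
        have h1 : Tendsto (fun w : ℂ => (F w⁻¹)⁻¹) (𝓝[≠] 0) (𝓝 0) :=
          tendsto_inv₀_cobounded.comp hco
        refine h1.congr' ?_
        filter_upwards [self_mem_nhdsWithin] with w hw
        rw [if_neg (show w ≠ 0 from hw)]
    | coe z =>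
      have hz : z ∉ E := fun h => hx ⟨z, h, rfl⟩
      refine ⟨false, false, z, F, par_false z, ?_, ?_⟩
      · exact hF.analyticAt (hEo.mem_nhds hz)
      · exact Eventually.of_forall fun w => by rw [par_false, par_false, hcoe]
  have h1 : A 1 0 = 0 := by
    rw [← smul_infty_eq_self_iff (g := A), ← hA, hinf]
  have h2 : A 1 1 ≠ 0 := by
    intro h2
    have := A.det_ne_zero
    rw [Matrix.det_fin_two] at this
    apply this
    have e1 : (A : Matrix (Fin 2) (Fin 2) ℂ) 1 1 = 0 := h2
    have e2 : (A : Matrix (Fin 2) (Fin 2) ℂ) 1 0 = 0 := h1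
    rw [e1, e2]
    ring
  apply hna
  refine ⟨A 0 0 / A 1 1, A 0 1 / A 1 1, fun z => ?_⟩
  have h3 := hA z
  rw [hcoe, smul_some_eq_ite, h1, zero_mul, zero_add, if_neg h2, coe_eq_coe] at h3
  rw [h3]
  field_simp

/-- A curve as a curve in the form of the frozen statement. -/
theorem IsCurve.frozen {C : Set ℂ} (hC : IsCurve C) :
    ((∃ γ : ℝ → ℂ, ContinuousOn γ (Set.Icc 0 1) ∧ Set.InjOn γ (Set.Icc 0 1) ∧
        C = γ '' Set.Icc 0 1) ∨
      (∃ γ : Circle → ℂ, Continuous γ ∧ Function.Injective γ ∧ C = Set.range γ)) := by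
  rcases hC with ⟨⟨e⟩⟩ | ⟨⟨e⟩⟩
  · left
    refine ⟨IccExtend zero_le_one fun t => (e t : ℂ), ?_, ?_, ?_⟩
    · exact (Continuous.Icc_extend' (continuous_subtype_val.comp e.continuous)).continuousOn
    · intro s hs t ht hst
      rw [IccExtend_of_mem _ _ hs, IccExtend_of_mem _ _ ht] at hst
      have := e.injective (Subtype.ext hst)
      exact congrArg Subtype.val this
    · ext z
      constructor
      · intro hz
        refine ⟨e.symm ⟨z, hz⟩, (e.symm ⟨z, hz⟩).2, ?_⟩
        rw [IccExtend_of_mem _ _ (e.symm ⟨z, hz⟩).2]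
        simp
      · rintro ⟨t, ht, rfl⟩
        rw [IccExtend_of_mem _ _ ht]
        exact (e ⟨t, ht⟩).2
  · right
    refine ⟨fun t => (e t : ℂ), continuous_subtype_val.comp e.continuous,
      Subtype.val_injective.comp e.injective, ?_⟩
    ext z
    constructor
    · intro hz
      exact ⟨e.symm ⟨z, hz⟩, by simp⟩
    · rintro ⟨t, rfl⟩
      exact (e t).2

/-- **Bishop's question (Q1), on the Riemann sphere.** Every curve in the plane (Jordan arc or
Jordan curve) which is not conformally removable contains a Cantor set which is not conformally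
removable. -/
theorem result (C : Set ℂ) (hC : IsCurve C) (h : ¬ ConfRemovable C) :
    ∃ K ⊆ C, IsCantorSet K ∧ ¬ ConfRemovable K := by
  obtain ⟨K, hKC, hK, hP, ht, hn, hf⟩ :=
    Pool.Agent.FB018.s03671_of_free Pool.Agent.FB018.freeInt C hC.frozen
      (planar_of_not_removable h)
  exact ⟨K, hKC, ⟨hn, hK, ht, hP.acc⟩, not_removable_of_planar hK hf⟩

end Pool.Agent.Results.MP_018119_an.RiemannSphere
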